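import Mathlib
import Pool.Agent.MP_e633d5_co.Mg.Closed

/-! A closed form for all `k`, for sequences with cyclomatic number `m ≥ 2 k / 3` having at least
`2 (k - m)` odd entries larger than one. -/

namespace Pool.Agent.Results.MP_e633d5_co.OddRich

open Pool.Agent.MP_e633d5_co

theorem result (k p m : ℕ) (d : Fin p → ℕ) (hm : 1 ≤ m) (hs : ∑ i, d i + 2 = 2 * p + 2 * m)
    (h1 : 2 * k ≤ 3 * m)
    (h2 : 2 * k ≤ 2 * m + (Finset.univ.filter fun i => Odd (d i) ∧ 3 ≤ d i).card) :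
    (∃ G : SimpleGraph (Fin p), KCyclic G k ∧ ∀ i, dg G i = d i) ↔
      (∀ i, 1 ≤ d i) ∧ m ≤ k ∧ 3 * m + 1 ≤ k + (Finset.univ.filter fun i => 2 ≤ d i).card ∧
        5 * m ≤ 2 * k + ∑ i, d i / 2 :=
  oddRich hm (by rw [Fintype.card_fin]; exact hs) h1 h2

end Pool.Agent.Results.MP_e633d5_co.OddRich
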